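import Mathlib

set_option autoImplicit false

namespace Pool.Agent.Results.MP_af603d_lc.NonSeparable

universe u v w

/-- `MapsOnto L K` : there is a surjection `L → K` which is order preserving in the weak sense. -/
def MapsOnto (L : Type u) (K : Type v) [LinearOrder L] [LinearOrder K] : Prop :=
  ∃ f : L → K, Monotone f ∧ Function.Surjective f

/-- `L` is strongly surjective: it maps onto each of its (nonempty) suborders. -/
def StronglySurjective (L : Type u) [LinearOrder L] : Prop :=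
  ∀ K : Set L, K.Nonempty → MapsOnto L K

/-- `L` is separable: some countable subset is dense in the order topology. -/
def SeparableOrder (L : Type u) [LinearOrder L] : Prop :=
  ∃ D : Set L, D.Countable ∧ @Dense L (Preorder.topology L) D

/-- The rationals map onto every nonempty countable linear order. -/
lemma rat_mapsOnto (C : Type u) [LinearOrder C] [Countable C] [Nonempty C] :
    MapsOnto ℚ C := by
  have : Countable (C ×ₗ ℚ) := inferInstanceAs (Countable (C × ℚ))
  have : Nonempty (C ×ₗ ℚ) := inferInstanceAs (Nonempty (C × ℚ))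
  have : NoMinOrder (C ×ₗ ℚ) := inferInstance
  obtain ⟨e⟩ := Order.iso_of_countable_dense ℚ (C ×ₗ ℚ)
  refine ⟨fun q => (ofLex (e q)).1, ?_, ?_⟩
  · intro a b hab
    have h : e a ≤ e b := e.monotone hab
    rcases Prod.Lex.le_iff.1 h with h | h
    · exact h.le
    · exact h.1.le
  · intro c
    refine ⟨e.symm (toLex (c, 0)), ?_⟩
    simp

/-- One sided version. -/
lemma mapsOnto_upper {I : Type u} {C : Type v} [LinearOrder I] [LinearOrder C] [Countable C]
    (i₀ : I) (hi₀ : ∀ i, i₀ ≤ i) (c₀ : C) (hc₀ : ∀ c, c₀ ≤ c)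
    (t : ℕ → I) (ht : ∀ i, ∃ n, i ≤ t n) : MapsOnto (I ×ₗ ℚ) C := by
  classical
  by_cases hmax : ∃ m : I, ∀ i, i ≤ m
  · obtain ⟨m, hm⟩ := hmax
    have : Nonempty C := ⟨c₀⟩
    obtain ⟨φ, hφ, hφs⟩ := rat_mapsOnto C
    refine ⟨fun p => if (ofLex p).1 = m then φ (ofLex p).2 else c₀, ?_, ?_⟩
    · intro a b hab
      show (if (ofLex a).1 = m then φ (ofLex a).2 else c₀) ≤
        (if (ofLex b).1 = m then φ (ofLex b).2 else c₀)
      rcases Prod.Lex.le_iff.1 hab with h | ⟨h, h'⟩
      · have ha : (ofLex a).1 ≠ m := fun e => by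
          rw [e] at h
          exact absurd (hm (ofLex b).1) (not_le.2 h)
        rw [if_neg ha]
        exact hc₀ _
      · rw [h]
        split_ifs
        · exact hφ h'
        · exact le_rfl
    · intro c
      obtain ⟨q, hq⟩ := hφs c
      refine ⟨toLex (m, q), ?_⟩
      simp [hq]
  · push Not at hmax
    -- a strictly increasing cofinal sequence
    have hnext : ∀ i : I, ∃ j, i < j := fun i => by
      obtain ⟨j, hj⟩ := hmax i
      exact ⟨j, hj⟩
    choose nx hnx using hnext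
    obtain ⟨s, hs0, hss⟩ : ∃ s : ℕ → I, s 0 = i₀ ∧ ∀ n, s (n + 1) = nx (max (s n) (t n)) :=
      ⟨fun n => Nat.rec (motive := fun _ => I) i₀ (fun k x => nx (max x (t k))) n,
        rfl, fun _ => rfl⟩
    have hsmono : StrictMono s := strictMono_nat_of_lt_succ (fun n => by
      rw [hss]
      exact lt_of_le_of_lt (le_max_left _ _) (hnx _))
    have hst : ∀ n, t n < s (n + 1) := fun n => by
      rw [hss]
      exact lt_of_le_of_lt (le_max_right _ _) (hnx _)
    have hcof : ∀ i, ∃ n, i < s n := fun i => by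
      obtain ⟨n, hn⟩ := ht i
      exact ⟨n + 1, lt_of_le_of_lt hn (hst n)⟩
    -- a monotone cofinal sequence in C
    have : Nonempty C := ⟨c₀⟩
    obtain ⟨e, he⟩ := exists_surjective_nat C
    obtain ⟨c, hc0, hcs⟩ : ∃ c : ℕ → C, c 0 = c₀ ∧ ∀ n, c (n + 1) = max (c n) (e n) :=
      ⟨fun n => Nat.rec (motive := fun _ => C) c₀ (fun k x => max x (e k)) n,
        rfl, fun _ => rfl⟩
    have hcmono : Monotone c := monotone_nat_of_le_succ (fun n => by
      rw [hcs]
      exact le_max_left _ _)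
    have hccof : ∀ x : C, ∃ n, x ≤ c n := fun x => by
      obtain ⟨n, hn⟩ := he x
      refine ⟨n + 1, ?_⟩
      rw [hcs, ← hn]
      exact le_max_right _ _
    have hφex : ∀ n : ℕ, ∃ φ : ℚ → Set.Icc (c n) (c (n + 1)),
        Monotone φ ∧ Function.Surjective φ := fun n => by
      have : Nonempty (Set.Icc (c n) (c (n + 1))) := ⟨⟨c n, le_rfl, hcmono (Nat.le_succ n)⟩⟩
      exact rat_mapsOnto _
    choose φ hφ hφs using hφex
    have hNex : ∀ i, ∃ n, i < s n ∧ ∀ m, m < n → s m ≤ i := fun i => by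
      have h := hcof i
      exact ⟨Nat.find h, Nat.find_spec h, fun m hm => not_lt.1 (Nat.find_min h hm)⟩
    choose N hN hNmin using hNex
    have hNpos : ∀ i, 0 < N i := fun i => by
      rcases Nat.eq_zero_or_pos (N i) with h | h
      · have := hN i
        rw [h, hs0] at this
        exact absurd (hi₀ i) (not_le.2 this)
      · exact h
    have hNle : ∀ i n, i < s n → N i ≤ n := fun i n hn => by
      by_contra hlt
      push Not at hlt
      exact absurd (hNmin i n hlt) (not_le.2 hn)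
    have hNmono : ∀ i j, i ≤ j → N i ≤ N j := fun i j hij =>
      hNle i _ (lt_of_le_of_lt hij (hN j))
    let f : I ×ₗ ℚ → C := fun p =>
      if (ofLex p).1 = s (N (ofLex p).1 - 1) then (φ (N (ofLex p).1 - 1) (ofLex p).2 : C)
      else c (N (ofLex p).1)
    have hfdef : ∀ i q, f (toLex (i, q)) =
      if i = s (N i - 1) then (φ (N i - 1) q : C) else c (N i) := fun i q => rfl
    have hfle : ∀ i q, f (toLex (i, q)) ≤ c (N i) := fun i q => by
      rw [hfdef]
      split_ifs with h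
      · exact (φ (N i - 1) q).2.2.trans (le_of_eq (congrArg c (Nat.sub_add_cancel (hNpos i))))
      · exact le_rfl
    have hfge : ∀ i q, c (N i - 1) ≤ f (toLex (i, q)) := fun i q => by
      rw [hfdef]
      split_ifs with h
      · exact (φ (N i - 1) q).2.1
      · exact hcmono (Nat.sub_le _ _)
    refine ⟨f, ?_, ?_⟩
    · intro a b hab
      obtain ⟨i, q⟩ := a
      obtain ⟨j, r⟩ := b
      change f (toLex (i, q)) ≤ f (toLex (j, r))
      rcases Prod.Lex.le_iff.1 hab with h | ⟨h, h'⟩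
      · change i < j at h
        rcases lt_or_eq_of_le (hNmono i j h.le) with hlt | heq
        · calc f (toLex (i, q)) ≤ c (N i) := hfle i q
            _ ≤ c (N j - 1) := hcmono (Nat.le_sub_one_of_lt hlt)
            _ ≤ f (toLex (j, r)) := hfge j r
        · have hj : j ≠ s (N j - 1) := by
            rw [← heq]
            have : s (N i - 1) ≤ i := hNmin i _ (Nat.sub_lt (hNpos i) Nat.one_pos)
            exact (lt_of_le_of_lt this h).ne'
          rw [hfdef j r, if_neg hj, ← heq]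
          exact hfle i q
      · change i = j at h
        change q ≤ r at h'
        subst h
        rw [hfdef, hfdef]
        split_ifs
        · exact_mod_cast hφ _ h'
        · exact le_rfl
    · intro x
      obtain ⟨n, hn1, hn2⟩ : ∃ n, c n ≤ x ∧ x ≤ c (n + 1) := by
        have h := Nat.find_spec (hccof x)
        have hmin := fun m hm => Nat.find_min (hccof x) (m := m) hm
        generalize Nat.find (hccof x) = k at h hmin
        rcases k with _ | k
        · exact ⟨0, hc0.le.trans (hc₀ x), le_trans h (hcmono (Nat.zero_le _))⟩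
        · exact ⟨k, (not_le.1 (hmin k (Nat.lt_succ_self k))).le, h⟩
      obtain ⟨q, hq⟩ := hφs n ⟨x, hn1, hn2⟩
      refine ⟨toLex (s n, q), ?_⟩
      have hNn : N (s n) = n + 1 := by
        apply le_antisymm
        · exact hNle (s n) _ (hsmono (Nat.lt_succ_self n))
        · by_contra hlt
          push Not at hlt
          have h1 : s (N (s n)) ≤ s n := hsmono.monotone (Nat.lt_succ_iff.1 hlt)
          exact absurd (hN (s n)) (not_lt.2 h1)
      rw [hfdef, hNn, if_pos (by simp)]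
      simp [hq]

/-- Transport of `MapsOnto` through order duality. -/
lemma mapsOnto_dual {I : Type u} {C : Type v} [LinearOrder I] [LinearOrder C]
    (h : MapsOnto (Iᵒᵈ ×ₗ ℚ) Cᵒᵈ) : MapsOnto (I ×ₗ ℚ) C := by
  obtain ⟨f, hf, hfs⟩ := h
  refine ⟨fun p => OrderDual.ofDual (f (toLex (OrderDual.toDual (ofLex p).1, -(ofLex p).2))),
    ?_, ?_⟩
  · intro a b hab
    obtain ⟨i, q⟩ := a
    obtain ⟨j, r⟩ := b
    have : toLex (OrderDual.toDual j, -r) ≤ (toLex (OrderDual.toDual i, -q) : Iᵒᵈ ×ₗ ℚ) := by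
      rw [Prod.Lex.le_iff]
      rcases Prod.Lex.le_iff.1 hab with h | ⟨h, h'⟩
      · left
        exact h
      · right
        change i = j at h
        change q ≤ r at h'
        subst h
        exact ⟨rfl, neg_le_neg h'⟩
    exact hf this
  · intro c
    obtain ⟨p, hp⟩ := hfs (OrderDual.toDual c)
    refine ⟨toLex (OrderDual.ofDual (ofLex p).1, -(ofLex p).2), ?_⟩
    obtain ⟨i, q⟩ := p
    simp only [ofLex_toLex, neg_neg]
    exact congrArg OrderDual.ofDual hp

lemma mapsOnto_lower {I : Type u} {C : Type v} [LinearOrder I] [LinearOrder C] [Countable C]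
    (i₀ : I) (hi₀ : ∀ i, i ≤ i₀) (c₀ : C) (hc₀ : ∀ c, c ≤ c₀)
    (t : ℕ → I) (ht : ∀ i, ∃ n, t n ≤ i) : MapsOnto (I ×ₗ ℚ) C := by
  apply mapsOnto_dual
  have : Countable Cᵒᵈ := inferInstanceAs (Countable C)
  exact mapsOnto_upper (OrderDual.toDual i₀) (fun i => hi₀ (OrderDual.ofDual i))
    (OrderDual.toDual c₀) (fun c => hc₀ (OrderDual.ofDual c))
    (fun n => OrderDual.toDual (t n)) (fun i => ht (OrderDual.ofDual i))

/-- Two sided version. -/
lemma mapsOnto_two {I : Type u} {C : Type v} [LinearOrder I] [LinearOrder C] [Countable C]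
    [Nonempty I] [Nonempty C]
    (t : ℕ → I) (ht : ∀ i, ∃ n, i ≤ t n) (t' : ℕ → I) (ht' : ∀ i, ∃ n, t' n ≤ i) :
    MapsOnto (I ×ₗ ℚ) C := by
  classical
  by_cases hsub : ∃ i₁ i₀ : I, i₁ < i₀
  · obtain ⟨i₁, i₀, h10⟩ := hsub
    obtain ⟨c₀⟩ := (inferInstance : Nonempty C)
    have hup : MapsOnto (Set.Ici i₀ ×ₗ ℚ) (Set.Ici c₀) := by
      refine mapsOnto_upper (⟨i₀, le_rfl⟩ : Set.Ici i₀) (fun i => i.2)
        (⟨c₀, le_rfl⟩ : Set.Ici c₀) (fun c => c.2)
        (fun n => ⟨max i₀ (t n), le_max_left _ _⟩) ?_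
      rintro ⟨i, hi⟩
      obtain ⟨n, hn⟩ := ht i
      exact ⟨n, Subtype.mk_le_mk.2 (le_trans hn (le_max_right _ _))⟩
    have hlo : MapsOnto (Set.Iic i₁ ×ₗ ℚ) (Set.Iic c₀) := by
      refine mapsOnto_lower (⟨i₁, le_rfl⟩ : Set.Iic i₁) (fun i => i.2)
        (⟨c₀, le_rfl⟩ : Set.Iic c₀) (fun c => c.2)
        (fun n => ⟨min i₁ (t' n), min_le_left _ _⟩) ?_
      rintro ⟨i, hi⟩
      obtain ⟨n, hn⟩ := ht' i
      exact ⟨n, Subtype.mk_le_mk.2 (le_trans (min_le_right _ _) hn)⟩
    obtain ⟨f, hf, hfs⟩ := hup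
    obtain ⟨g, hg, hgs⟩ := hlo
    let F : I ×ₗ ℚ → C := fun p =>
      if h : i₀ ≤ (ofLex p).1 then (f (toLex (⟨(ofLex p).1, h⟩, (ofLex p).2)) : C)
      else if h' : (ofLex p).1 ≤ i₁ then (g (toLex (⟨(ofLex p).1, h'⟩, (ofLex p).2)) : C)
      else c₀
    have hF1 : ∀ (i : I) (q : ℚ) (h : i₀ ≤ i),
        F (toLex (i, q)) = (f (toLex (⟨i, h⟩, q)) : C) := fun i q h => by
      change (if h : i₀ ≤ i then (f (toLex (⟨i, h⟩, q)) : C)
        else if h' : i ≤ i₁ then (g (toLex (⟨i, h'⟩, q)) : C) else c₀) = _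
      rw [dif_pos h]
    have hF2 : ∀ (i : I) (q : ℚ) (h : i ≤ i₁),
        F (toLex (i, q)) = (g (toLex (⟨i, h⟩, q)) : C) := fun i q h => by
      change (if h : i₀ ≤ i then (f (toLex (⟨i, h⟩, q)) : C)
        else if h' : i ≤ i₁ then (g (toLex (⟨i, h'⟩, q)) : C) else c₀) = _
      rw [dif_neg (not_le.2 (lt_of_le_of_lt h h10)), dif_pos h]
    have hF3 : ∀ (i : I) (q : ℚ) (h : ¬ i₀ ≤ i) (h' : ¬ i ≤ i₁),
        F (toLex (i, q)) = c₀ := fun i q h h' => by
      change (if h : i₀ ≤ i then (f (toLex (⟨i, h⟩, q)) : C)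
        else if h' : i ≤ i₁ then (g (toLex (⟨i, h'⟩, q)) : C) else c₀) = _
      rw [dif_neg h, dif_neg h']
    have hFge : ∀ (i : I) (q : ℚ), i₁ < i → c₀ ≤ F (toLex (i, q)) := fun i q hi => by
      by_cases h : i₀ ≤ i
      · rw [hF1 i q h]
        exact (f _).2
      · rw [hF3 i q h (not_le.2 hi)]
    have hFle : ∀ (i : I) (q : ℚ), i < i₀ → F (toLex (i, q)) ≤ c₀ := fun i q hi => by
      by_cases h : i ≤ i₁
      · rw [hF2 i q h]
        exact (g _).2
      · rw [hF3 i q (not_le.2 hi) h]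
    refine ⟨F, ?_, ?_⟩
    · intro a b hab
      obtain ⟨i, q⟩ := a
      obtain ⟨j, r⟩ := b
      change F (toLex (i, q)) ≤ F (toLex (j, r))
      have hij : i ≤ j := by
        rcases Prod.Lex.le_iff.1 hab with h | ⟨h, h'⟩
        · exact le_of_lt h
        · exact le_of_eq h
      by_cases hi : i₀ ≤ i
      · have hj : i₀ ≤ j := hi.trans hij
        rw [hF1 i q hi, hF1 j r hj]
        have : (toLex ((⟨i, hi⟩ : Set.Ici i₀), q) : Set.Ici i₀ ×ₗ ℚ) ≤ toLex (⟨j, hj⟩, r) := by
          rw [Prod.Lex.le_iff]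
          rcases Prod.Lex.le_iff.1 hab with h | ⟨h, h'⟩
          · left
            exact h
          · right
            exact ⟨Subtype.ext h, h'⟩
        exact_mod_cast hf this
      · push Not at hi
        by_cases hj : j ≤ i₁
        · have hi1 : i ≤ i₁ := hij.trans hj
          rw [hF2 i q hi1, hF2 j r hj]
          have : (toLex ((⟨i, hi1⟩ : Set.Iic i₁), q) : Set.Iic i₁ ×ₗ ℚ) ≤ toLex (⟨j, hj⟩, r) := by
            rw [Prod.Lex.le_iff]
            rcases Prod.Lex.le_iff.1 hab with h | ⟨h, h'⟩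
            · left
              exact h
            · right
              exact ⟨Subtype.ext h, h'⟩
          exact_mod_cast hg this
        · push Not at hj
          exact (hFle i q hi).trans (hFge j r hj)
    · intro c
      rcases le_total c₀ c with h | h
      · obtain ⟨p, hp⟩ := hfs ⟨c, h⟩
        obtain ⟨⟨i, hi⟩, q⟩ := p
        refine ⟨toLex (i, q), ?_⟩
        rw [hF1 i q hi]
        exact congrArg Subtype.val hp
      · obtain ⟨p, hp⟩ := hgs ⟨c, h⟩
        obtain ⟨⟨i, hi⟩, q⟩ := p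
        refine ⟨toLex (i, q), ?_⟩
        rw [hF2 i q hi]
        exact congrArg Subtype.val hp
  · push Not at hsub
    obtain ⟨φ, hφ, hφs⟩ := rat_mapsOnto C
    refine ⟨fun p => φ (ofLex p).2, ?_, ?_⟩
    · intro a b hab
      rcases Prod.Lex.le_iff.1 hab with h | ⟨h, h'⟩
      · exact absurd h (not_lt.2 (hsub _ _))
      · exact hφ h'
    · intro c
      obtain ⟨q, hq⟩ := hφs c
      obtain ⟨i⟩ := (inferInstance : Nonempty I)
      exact ⟨toLex (i, q), hq⟩

/-- In a strongly surjective order, every nonempty suborder has countable cofinality. -/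
lemma cofinal_seq {X : Type u} [LinearOrder X] (hX : StronglySurjective X) (I : Set X)
    (hI : I.Nonempty) : ∃ t : ℕ → I, ∀ i, ∃ n, i ≤ t n := by
  by_cases hmax : ∃ m : I, ∀ i : I, i ≤ m
  · obtain ⟨m, hm⟩ := hmax
    exact ⟨fun _ => m, fun i => ⟨0, hm i⟩⟩
  · push Not at hmax
    have : Nonempty I := hI.to_subtype
    have : NoMaxOrder I := ⟨fun a => hmax a⟩
    obtain ⟨a, ha⟩ := Nat.exists_strictMono I
    let A : Set X := Set.range (fun n => (a n : X))
    have hA : A.Nonempty := ⟨_, ⟨0, rfl⟩⟩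
    obtain ⟨f, hf, hfs⟩ := hX A hA
    obtain ⟨g, hg, hgs⟩ := hX I hI
    have hx : ∀ n : ℕ, ∃ x : X, (f x : X) = (a n : X) := fun n => by
      obtain ⟨x, hx⟩ := hfs ⟨(a n : X), ⟨n, rfl⟩⟩
      exact ⟨x, by rw [hx]⟩
    choose x hx using hx
    refine ⟨fun n => g (x n), fun i => ?_⟩
    obtain ⟨y, rfl⟩ := hgs i
    obtain ⟨m, hm⟩ := (f y).2
    refine ⟨m + 1, hg ?_⟩
    by_contra hlt
    push Not at hlt
    have h1 : (f (x (m + 1)) : X) ≤ (f y : X) := hf hlt.le
    rw [hx, ← hm] at h1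
    have h2 : (a m : X) < (a (m + 1) : X) := ha (Nat.lt_succ_self m)
    exact absurd h1 (not_le.2 h2)

/-- In a strongly surjective order, every nonempty suborder has countable coinitiality. -/
lemma coinitial_seq {X : Type u} [LinearOrder X] (hX : StronglySurjective X) (I : Set X)
    (hI : I.Nonempty) : ∃ t : ℕ → I, ∀ i, ∃ n, t n ≤ i := by
  by_cases hmin : ∃ m : I, ∀ i : I, m ≤ i
  · obtain ⟨m, hm⟩ := hmin
    exact ⟨fun _ => m, fun i => ⟨0, hm i⟩⟩
  · push Not at hmin
    have : Nonempty I := hI.to_subtype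
    have : NoMinOrder I := ⟨fun a => hmin a⟩
    obtain ⟨a, ha⟩ := Nat.exists_strictAnti I
    let A : Set X := Set.range (fun n => (a n : X))
    have hA : A.Nonempty := ⟨_, ⟨0, rfl⟩⟩
    obtain ⟨f, hf, hfs⟩ := hX A hA
    obtain ⟨g, hg, hgs⟩ := hX I hI
    have hx : ∀ n : ℕ, ∃ x : X, (f x : X) = (a n : X) := fun n => by
      obtain ⟨x, hx⟩ := hfs ⟨(a n : X), ⟨n, rfl⟩⟩
      exact ⟨x, by rw [hx]⟩
    choose x hx using hx
    refine ⟨fun n => g (x n), fun i => ?_⟩
    obtain ⟨y, rfl⟩ := hgs i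
    obtain ⟨m, hm⟩ := (f y).2
    refine ⟨m + 1, hg ?_⟩
    by_contra hlt
    push Not at hlt
    have h1 : (f y : X) ≤ (f (x (m + 1)) : X) := hf hlt.le
    rw [hx, ← hm] at h1
    have h2 : (a (m + 1) : X) < (a m : X) := ha (Nat.lt_succ_self m)
    exact absurd h1 (not_le.2 h2)

/-- The class of strongly surjective orders is closed under `X ↦ X ×ₗ ℚ`. -/
theorem stronglySurjective_prodLex {X : Type u} [LinearOrder X] (hX : StronglySurjective X) :
    StronglySurjective (X ×ₗ ℚ) := by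
  classical
  intro K hK
  let Y : Set X := (fun p : X ×ₗ ℚ => (ofLex p).1) '' K
  have hY : Y.Nonempty := hK.image _
  obtain ⟨g, hg, hgs⟩ := hX Y hY
  have hh : ∀ y : Y, ∃ h : ({x : X | g x = y} : Set X) ×ₗ ℚ → {q : ℚ | toLex ((y : X), q) ∈ K},
      Monotone h ∧ Function.Surjective h := by
    intro y
    have hI : ({x : X | g x = y} : Set X).Nonempty := hgs y
    have hC : ({q : ℚ | toLex ((y : X), q) ∈ K}).Nonempty := by
      obtain ⟨p, hp, hpy⟩ := y.2
      refine ⟨(ofLex p).2, ?_⟩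
      have : toLex ((y : X), (ofLex p).2) = p := by
        rw [← hpy]
        rfl
      change toLex ((y : X), (ofLex p).2) ∈ K
      rw [this]
      exact hp
    have := hI.to_subtype
    have := hC.to_subtype
    obtain ⟨t, ht⟩ := cofinal_seq hX _ hI
    obtain ⟨t', ht'⟩ := coinitial_seq hX _ hI
    exact mapsOnto_two t ht t' ht'
  choose h hmono hsurj using hh
  let F : X ×ₗ ℚ → K := fun p =>
    ⟨toLex ((g (ofLex p).1 : X), (h (g (ofLex p).1) (toLex (⟨(ofLex p).1, rfl⟩, (ofLex p).2)) : ℚ)),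
      (h (g (ofLex p).1) (toLex (⟨(ofLex p).1, rfl⟩, (ofLex p).2))).2⟩
  have hF : ∀ (x : X) (q : ℚ) (y : Y) (e : g x = y), (F (toLex (x, q)) : X ×ₗ ℚ) =
      toLex ((y : X), (h y (toLex (⟨x, e⟩, q)) : ℚ)) := by
    intro x q y e
    subst e
    rfl
  refine ⟨F, ?_, ?_⟩
  · intro a b hab
    obtain ⟨x, q⟩ := a
    obtain ⟨x', q'⟩ := b
    change (F (toLex (x, q)) : X ×ₗ ℚ) ≤ (F (toLex (x', q')) : X ×ₗ ℚ)
    have hle : x ≤ x' := by
      rcases Prod.Lex.le_iff.1 hab with h | ⟨h, h'⟩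
      · exact le_of_lt h
      · exact le_of_eq h
    rw [hF x q _ rfl, hF x' q' _ rfl, Prod.Lex.le_iff]
    rcases lt_or_eq_of_le (hg hle) with hlt | heq
    · left
      exact hlt
    · right
      refine ⟨congrArg Subtype.val heq, ?_⟩
      have e1 := hF x' q' (g x) heq.symm
      rw [hF x' q' _ rfl] at e1
      have e2 : ((h (g x') (toLex (⟨x', rfl⟩, q')) : ℚ)) =
          (h (g x) (toLex (⟨x', heq.symm⟩, q')) : ℚ) := congrArg (fun p => (ofLex p).2) e1
      change (h (g x) (toLex (⟨x, rfl⟩, q)) : ℚ) ≤ (h (g x') (toLex (⟨x', rfl⟩, q')) : ℚ)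
      rw [e2]
      have h3 : (toLex ((⟨x, rfl⟩ : {z : X | g z = g x}), q) : ({z : X | g z = g x} : Set X) ×ₗ ℚ) ≤
          toLex (⟨x', heq.symm⟩, q') := by
        rw [Prod.Lex.le_iff]
        rcases Prod.Lex.le_iff.1 hab with h | ⟨h, h'⟩
        · left
          exact h
        · right
          exact ⟨Subtype.ext h, h'⟩
      exact_mod_cast hmono (g x) h3
  · rintro ⟨p, hp⟩
    obtain ⟨z, r⟩ := p
    have hy : z ∈ Y := ⟨toLex (z, r), hp, rfl⟩
    obtain ⟨w, hw⟩ := hsurj ⟨z, hy⟩ ⟨r, hp⟩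
    obtain ⟨⟨x, hx⟩, q⟩ := w
    refine ⟨toLex (x, q), ?_⟩
    apply Subtype.ext
    rw [hF x q ⟨z, hy⟩ hx]
    have : (h ⟨z, hy⟩ (toLex (⟨x, hx⟩, q)) : ℚ) = r := congrArg Subtype.val hw
    rw [this]
    rfl

/-- Whenever `X` is an uncountable strongly surjective linear order, the lexicographic product
`X ×ₗ ℚ` is an uncountable strongly surjective linear order which is densely ordered, has an
uncountable family of pairwise disjoint nonempty open intervals, and is not separable. -/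
theorem result (X : Type u) [LinearOrder X] (hunc : Uncountable X) (hX : StronglySurjective X) :
    Uncountable (X ×ₗ ℚ) ∧ StronglySurjective (X ×ₗ ℚ) ∧ DenselyOrdered (X ×ₗ ℚ) ∧
      (∃ U : X → Set (X ×ₗ ℚ), (∀ x, (U x).Nonempty ∧ ∃ a b, U x = Set.Ioo a b) ∧
        Pairwise (Function.onFun Disjoint U)) ∧
      ¬ SeparableOrder (X ×ₗ ℚ) := by
  have hne : ∀ x : X, (Set.Ioo (toLex (x, (0 : ℚ))) (toLex (x, (1 : ℚ))) :
      Set (X ×ₗ ℚ)).Nonempty := fun x => by
    refine ⟨toLex (x, 1/2), ?_, ?_⟩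
    · rw [Prod.Lex.lt_iff]
      right
      exact ⟨rfl, by norm_num⟩
    · rw [Prod.Lex.lt_iff]
      right
      exact ⟨rfl, by norm_num⟩
  have hfst : ∀ (x : X) (p : X ×ₗ ℚ),
      p ∈ Set.Ioo (toLex (x, (0 : ℚ))) (toLex (x, (1 : ℚ))) → (ofLex p).1 = x := by
    intro x p hp
    obtain ⟨h1, h2⟩ := hp
    rw [Prod.Lex.lt_iff] at h1 h2
    simp only [ofLex_toLex] at h1 h2
    have h1' : x ≤ (ofLex p).1 := by
      rcases h1 with h | h
      · exact h.le
      · exact h.1.le
    have h2' : (ofLex p).1 ≤ x := by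
      rcases h2 with h | h
      · exact h.le
      · exact h.1.le
    exact le_antisymm h2' h1'
  refine ⟨?_, stronglySurjective_prodLex hX, inferInstance, ?_, ?_⟩
  · have hinj : Function.Injective (fun x : X => (toLex (x, (0 : ℚ)) : X ×ₗ ℚ)) := by
      intro a b hab
      exact congrArg (fun p => (ofLex p).1) hab
    exact hinj.uncountable
  · refine ⟨fun x => Set.Ioo (toLex (x, 0)) (toLex (x, 1)), fun x => ⟨hne x, _, _, rfl⟩, ?_⟩
    intro x y hxy
    rw [Function.onFun, Set.disjoint_left]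
    intro p hp hp'
    exact hxy ((hfst x p hp).symm.trans (hfst y p hp'))
  · rintro ⟨D, hDc, hD⟩
    let _ : TopologicalSpace (X ×ₗ ℚ) := Preorder.topology (X ×ₗ ℚ)
    have : OrderTopology (X ×ₗ ℚ) := ⟨rfl⟩
    have hex : ∀ x : X, ∃ d ∈ D, (ofLex d).1 = x := by
      intro x
      obtain ⟨d, hd, hdD⟩ := hD.inter_open_nonempty _ (isOpen_Ioo) (hne x)
      exact ⟨d, hdD, hfst x d hd⟩
    have hsurj : Set.SurjOn (fun d : X ×ₗ ℚ => (ofLex d).1) D Set.univ := by
      intro x _
      obtain ⟨d, hd, hdx⟩ := hex x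
      exact ⟨d, hd, hdx⟩
    have hc : (Set.univ : Set X).Countable := (hDc.image _).mono hsurj
    exact (Set.not_countable_univ_iff.2 hunc) hc

end Pool.Agent.Results.MP_af603d_lc.NonSeparable
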